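import Mathlib
import Pool.Agent.Y212.RM.Sym
import Pool.Agent.R913.Adj.Rep

/-!
# Maximal tori and the trace form on a direct summand
-/

set_option autoImplicit false
set_option linter.unusedSectionVars false

namespace Pool.Agent.K6.H79.MT

open Module Pool.Agent.TH118.SG Pool.Agent.Y114.RM Pool.Agent.Y212.RM Pool.Agent.R913.Adj

section cut

variable {K : Type} [Field K] {E F : Type} [AddCommGroup E] [Module K E] [AddCommGroup F]
  [Module K F] (a : F →ₗ[K] E) (p : E →ₗ[K] F)

/-- The restriction of endomorphisms to a direct summand. -/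
def cut : End K E →ₗ[K] End K F where
  toFun X := p ∘ₗ X ∘ₗ a
  map_add' X Y := by rw [LinearMap.add_comp, LinearMap.comp_add]
  map_smul' c X := by rw [LinearMap.smul_comp, LinearMap.comp_smul, RingHom.id_apply]

theorem cut_apply (X : End K E) (v : F) : cut a p X v = p (X (a v)) := rfl

/-- The elements of `G` respect the direct summand. -/
structure Cuts (G : Submodule K (End K E)) : Prop where
  pa : ∀ v, p (a v) = v
  left : ∀ X ∈ G, ∀ v, X (a v) = a (cut a p X v)
  right : ∀ X ∈ G, ∀ x, p (X x) = cut a p X (p x)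

variable {a p} {G : Submodule K (End K E)}

theorem Cuts.mul (hc : Cuts a p G) {X : End K E} (hX : X ∈ G) (Y : End K E) :
    cut a p (X * Y) = cut a p X * cut a p Y := by
  refine LinearMap.ext fun v => ?_
  rw [cut_apply, Module.End.mul_apply, Module.End.mul_apply, cut_apply a p Y, hc.right X hX]

theorem Cuts.lie (hc : Cuts a p G) {X Y : End K E} (hX : X ∈ G) (hY : Y ∈ G) :
    cut a p (X * Y - Y * X) = cut a p X * cut a p Y - cut a p Y * cut a p X := by
  rw [map_sub, hc.mul hX, hc.mul hY]

end cut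

section diag

variable {K : Type} [Field K] {F : Type} [AddCommGroup F] [Module K F] [FiniteDimensional K F]

theorem exists_eigenbasis {x : End K F} (hd : ⨆ μ, End.eigenspace x μ = ⊤) :
    ∃ (ν : Type) (_ : Fintype ν) (B : Basis ν K F) (β : ν → K), ∀ r, x (B r) = β r • B r := by
  classical
  have hint : DirectSum.IsInternal (fun μ : K => End.eigenspace x μ) :=
    DirectSum.isInternal_submodule_of_iSupIndep_of_iSup_eq_top (End.eigenspaces_iSupIndep x) hd
  let b : ∀ μ : K, Basis (Fin (finrank K (End.eigenspace x μ))) K (End.eigenspace x μ) :=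
    fun μ => Module.finBasis K _
  let B := hint.collectedBasis b
  refine ⟨_, FiniteDimensional.fintypeBasisIndex B, B, fun r => r.1, fun r => ?_⟩
  exact End.mem_eigenspace_iff.1 (hint.collectedBasis_mem b r)

theorem trace_basis {ν : Type} [Fintype ν] (B : Basis ν K F) {x : End K F} {β : ν → K}
    (h : ∀ r, x (B r) = β r • B r) : LinearMap.trace K F x = ∑ r, β r := by
  classical
  rw [LinearMap.trace_eq_matrix_trace K B, Matrix.trace]
  refine Finset.sum_congr rfl fun r _ => ?_
  rw [Matrix.diag_apply, LinearMap.toMatrix_apply, h, map_smul, Basis.repr_self,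
    Finsupp.smul_apply, Finsupp.single_eq_same, smul_eq_mul, mul_one]

end diag

section tor

variable {K : Type} [Field K] [CharZero K] [IsAlgClosed K] {E F : Type} [AddCommGroup E]
  [Module K E] [FiniteDimensional K E] [AddCommGroup F] [Module K F] [FiniteDimensional K F]
  {a : F →ₗ[K] E} {p : E →ₗ[K] F} {G t : Submodule K (End K E)}

theorem diag_cut (hc : Cuts a p G) {b : End K E} (hb : b ∈ G)
    (hd : ⨆ μ, End.eigenspace b μ = ⊤) : ⨆ μ, End.eigenspace (cut a p b) μ = ⊤ := by
  rw [eq_top_iff]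
  intro v _
  have key : ∀ x ∈ ⨆ μ, End.eigenspace b μ, p x ∈ ⨆ μ, End.eigenspace (cut a p b) μ := by
    intro x hx
    induction hx using Submodule.iSup_induction' with
    | mem μ x hx =>
      refine Submodule.mem_iSup_of_mem μ ?_
      rw [End.mem_eigenspace_iff] at hx ⊢
      rw [← hc.right b hb, hx, map_smul]
    | zero => rw [map_zero]; exact Submodule.zero_mem _
    | add x y _ _ hx hy => rw [map_add]; exact Submodule.add_mem _ hx hy
  have h1 := key (a v) (by rw [hd]; trivial)
  rwa [hc.pa] at h1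

/-- A space of commuting diagonalizable operators with all their replicas: the trace form of the
summand. -/
theorem cut_eq_zero (hc : Cuts a p G) (htG : t ≤ G)
    (hdiag : ∀ b ∈ t, ⨆ μ, End.eigenspace b μ = ⊤)
    (hrep : ∀ b ∈ t, ∀ f : K →+ K, ∃ s ∈ t, IsRep f b s) {b : End K E} (hb : b ∈ t)
    (h : ∀ c ∈ t, LinearMap.trace K F (cut a p b * cut a p c) = 0) : cut a p b = 0 := by
  classical
  obtain ⟨ν, _, B, β, hB⟩ := exists_eigenbasis (diag_cut hc (htG hb) (hdiag b hb))
  have hβ : ∀ r, β r = 0 := by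
    intro r
    rw [← Module.forall_dual_apply_eq_zero_iff ℚ (β r)]
    intro f
    obtain ⟨s, hs, hrs⟩ := hrep b hb ((algebraMap ℚ K).toAddMonoidHom.comp f.toAddMonoidHom)
    have hsB : ∀ r, cut a p s (B r) = algebraMap ℚ K (f (β r)) • B r := by
      intro r
      rw [cut_apply]
      have h1 : a (B r) ∈ b.maxGenEigenspace (β r) := by
        rw [mem_gen]
        refine ⟨1, ?_⟩
        rw [pow_one, LinearMap.sub_apply, Module.algebraMap_end_apply, hc.left b (htG hb), hB,
          map_smul, sub_self]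
      rw [hrs _ _ h1, map_smul, hc.pa]
      rfl
    have h2 := h s hs
    rw [trace_basis B (β := fun r => β r * algebraMap ℚ K (f (β r))) (fun r => by
      rw [Module.End.mul_apply, hsB, map_smul, hB, smul_smul, mul_comm])] at h2
    have h3 : ∑ r, f (β r) * f (β r) = 0 := by
      have h4 := congrArg f h2
      rw [map_zero, map_sum] at h4
      rw [← h4]
      refine Finset.sum_congr rfl fun r _ => ?_
      have h5 : β r * algebraMap ℚ K (f (β r)) = f (β r) • β r := by
        rw [Algebra.smul_def, mul_comm]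
      rw [h5, map_smul, smul_eq_mul]
    have h4 := (Finset.sum_eq_zero_iff_of_nonneg (fun r _ => mul_self_nonneg (f (β r)))).1 h3 r
      (Finset.mem_univ r)
    exact mul_self_eq_zero.1 h4
  refine B.ext fun r => ?_
  rw [hB, hβ, zero_smul, LinearMap.zero_apply]

/-- The torus on a direct summand. -/
theorem tor_cut (T : Tor G t) (hc : Cuts a p G)
    (hrep : ∀ b ∈ t, ∀ f : K →+ K, ∃ s ∈ t, IsRep f b s) :
    Tor (G.map (cut a p)) (t.map (cut a p)) := by
  refine ⟨?_, ?_, Submodule.map_mono T.le, ?_, ?_, ?_⟩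
  · rintro _ ⟨X, hX, rfl⟩ _ ⟨Y, hY, rfl⟩
    exact ⟨_, T.lie X hX Y hY, hc.lie hX hY⟩
  · rintro _ ⟨X, hX, rfl⟩ htr
    let R : Submodule K (End K E) :=
      { carrier := {X | X ∈ G ∧ ∀ Y ∈ G, LinearMap.trace K F (cut a p X * cut a p Y) = 0}
        add_mem' := by
          rintro x y ⟨hx, hx'⟩ ⟨hy, hy'⟩
          refine ⟨G.add_mem hx hy, fun Y hY => ?_⟩
          rw [map_add, add_mul, LinearMap.map_add, hx' Y hY, hy' Y hY, add_zero]
        zero_mem' := ⟨G.zero_mem, fun Y _ => by rw [map_zero, zero_mul, LinearMap.map_zero]⟩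
        smul_mem' := by
          rintro c x ⟨hx, hx'⟩
          refine ⟨G.smul_mem c hx, fun Y hY => ?_⟩
          rw [map_smul, smul_mul_assoc, LinearMap.map_smul, hx' Y hY, smul_zero] }
    have hR : ∀ Z ∈ G, ∀ X ∈ R, Z * X - X * Z ∈ R := by
      rintro Z hZ X ⟨hX, hX'⟩
      refine ⟨T.lie Z hZ X hX, fun Y hY => ?_⟩
      have h1 : cut a p (Z * X - X * Z) * cut a p Y =
          (cut a p Z * (cut a p X * cut a p Y) - (cut a p X * cut a p Y) * cut a p Z) -
            cut a p X * cut a p (Z * Y - Y * Z) := by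
        rw [hc.lie hZ hX, hc.lie hZ hY]
        noncomm_ring
      rw [h1, LinearMap.map_sub, trace_lie_zero, hX' _ (T.lie Z hZ Y hY), sub_zero]
    refine wt_induction t T.diag T.comm R (fun b hb X hX => hR b (T.le hb) X hX)
      (P := fun X => cut a p X = 0) (map_zero _) (fun x y _ _ hx hy => ?_) ?_ X
      ⟨hX, fun Y hY => htr _ ⟨Y, hY, rfl⟩⟩
    · show cut a p (x + y) = 0
      have hx' : cut a p x = 0 := hx
      have hy' : cut a p y = 0 := hy
      rw [map_add, hx', hy', add_zero]
    · rintro χ e ⟨heG, heR⟩ hwt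
      show cut a p e = 0
      by_cases hχ : ∃ a0 : t, χ a0 ≠ 0
      · obtain ⟨a0, ha0⟩ := hχ
        by_cases he0 : e = 0
        · rw [he0, map_zero]
        obtain ⟨f, hf, -, -, h, hht, -, hef, hhe, -⟩ := T.exists_triple heG hwt he0 ha0
        have hhR : h ∈ R := by
          have h1 : h = -(f * e - e * f) := by rw [← hef, neg_sub]
          rw [h1]
          exact R.neg_mem (hR f hf e ⟨heG, heR⟩)
        have hh0 : cut a p h = 0 :=
          cut_eq_zero hc T.le T.diag hrep hht fun c hc' => hhR.2 c (T.le hc')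
        have h2 : cut a p (2 • e) = 0 := by
          rw [← hhe, hc.lie (T.le hht) heG, hh0, zero_mul, mul_zero, sub_zero]
        rw [map_nsmul, ← ofNat_smul_eq_nsmul K] at h2
        exact (smul_eq_zero.1 h2).resolve_left two_ne_zero
      · push Not at hχ
        have het : e ∈ t := by
          apply T.cen e heG
          intro b hb
          have h1 := hwt ⟨b, hb⟩
          rw [hχ, zero_smul] at h1
          exact sub_eq_zero.1 h1
        exact cut_eq_zero hc T.le T.diag hrep het fun c hc' => heR c (T.le hc')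
  · rintro _ ⟨b, hb, rfl⟩
    exact diag_cut hc (T.le hb) (T.diag b hb)
  · rintro _ ⟨b, hb, rfl⟩ _ ⟨b', hb', rfl⟩
    rw [← hc.mul (T.le hb), ← hc.mul (T.le hb'), T.comm b hb b' hb']
  · rintro _ ⟨X, hX, rfl⟩ hcomm
    let S : Submodule K (End K E) :=
      { carrier := {X | X ∈ G ∧ ∀ b ∈ t, cut a p b * cut a p X = cut a p X * cut a p b}
        add_mem' := by
          rintro x y ⟨hx, hx'⟩ ⟨hy, hy'⟩
          refine ⟨G.add_mem hx hy, fun b hb => ?_⟩
          rw [map_add, add_mul, mul_add, hx' b hb, hy' b hb]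
        zero_mem' := ⟨G.zero_mem, fun b _ => by rw [map_zero, zero_mul, mul_zero]⟩
        smul_mem' := by
          rintro c x ⟨hx, hx'⟩
          refine ⟨G.smul_mem c hx, fun b hb => ?_⟩
          rw [map_smul, smul_mul_assoc, mul_smul_comm, hx' b hb] }
    refine wt_induction t T.diag T.comm S (fun b hb X hX => ⟨T.lie b (T.le hb) X hX.1, fun c hc' =>
      ?_⟩) (P := fun X => cut a p X ∈ t.map (cut a p)) ?_ (fun x y _ _ hx hy => ?_) ?_ X
      ⟨hX, fun b hb => hcomm _ ⟨b, hb, rfl⟩⟩
    · rw [hc.lie (T.le hb) hX.1, hX.2 b hb, sub_self, mul_zero, zero_mul]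
    · show cut a p 0 ∈ t.map (cut a p)
      rw [map_zero]
      exact Submodule.zero_mem _
    · show cut a p (x + y) ∈ t.map (cut a p)
      rw [map_add]
      exact Submodule.add_mem _ hx hy
    · rintro χ e ⟨heG, heS⟩ hwt
      show cut a p e ∈ t.map (cut a p)
      by_cases hχ : ∃ a0 : t, χ a0 ≠ 0
      · obtain ⟨a0, ha0⟩ := hχ
        have h1 := congrArg (cut a p) (hwt a0)
        rw [hc.lie (T.le a0.2) heG, heS a0 a0.2, sub_self, map_smul] at h1
        rw [(smul_eq_zero.1 h1.symm).resolve_left ha0]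
        exact Submodule.zero_mem _
      · push Not at hχ
        refine ⟨e, T.cen e heG fun b hb => ?_, rfl⟩
        have h1 := hwt ⟨b, hb⟩
        rw [hχ, zero_smul] at h1
        exact sub_eq_zero.1 h1

end tor

end Pool.Agent.K6.H79.MT
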