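import Mathlib
import Pool.Agent.R931.BD.Main
import Pool.Agent.Y114.RM.Torus
import Pool.Agent.K6.H79.MT.Cut

/-!
# Subalgebras of maximal rank with the same commutants in the blocks
-/

set_option autoImplicit false
set_option linter.unusedSectionVars false

namespace Pool.Agent.K6.H79.MT

open Module TensorProduct Pool.Agent.TH118.SG Pool.Agent.Y114.RM Pool.Agent.Y212.RM
  Pool.Agent.Y114.MU Pool.Agent.Y114.TF Pool.Agent.H204R3.GP Pool.Agent.R931.BD
  Pool.Agent.R913.Adj

section rep

variable {K : Type} [Field K] [CharZero K] [IsAlgClosed K] {E : Type} [AddCommGroup E]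
  [Module K E] [FiniteDimensional K E]

theorem rep_comm {f : K →+ K} {b s y : End K E} (hs : IsRep f b s) (h : b * y = y * b) :
    s * y = y * s := by
  refine LinearMap.ext fun x => ?_
  have h1 : ∀ x, y (b x) = b (y x) := fun x => (LinearMap.congr_fun h x).symm
  exact (rep_nat h1 hs hs x).symm

end rep

section blocks

variable {k : Type} [Field k] {ι : Type} [DecidableEq ι] {V : ι → Type}
  [∀ i, AddCommGroup (V i)] [∀ i, Module k (V i)]

/-- The `i`-th block of an endomorphism of the direct sum. -/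
def part (i : ι) : End k (∀ i, V i) →ₗ[k] End k (V i) where
  toFun X := LinearMap.proj i ∘ₗ X ∘ₗ LinearMap.single k V i
  map_add' X Y := by rw [LinearMap.add_comp, LinearMap.comp_add]
  map_smul' c X := by rw [LinearMap.smul_comp, LinearMap.comp_smul, RingHom.id_apply]

/-- The elements of `G` respect the direct sum. -/
def Parts (G : Submodule k (End k (∀ i, V i))) : Prop :=
  ∀ X ∈ G, ∀ x i, X x i = X (Pi.single i (x i)) i

theorem part_apply (i : ι) (X : End k (∀ i, V i)) (x : V i) : part i X x = X (Pi.single i x) i :=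
  rfl

theorem Parts.single {G : Submodule k (End k (∀ i, V i))} (hG : Parts G)
    {X : End k (∀ i, V i)} (hX : X ∈ G) (i : ι) (x : V i) :
    X (Pi.single i x) = Pi.single i (part i X x) := by
  funext j
  rw [hG X hX]
  by_cases h : j = i
  · subst h
    rw [Pi.single_eq_same, Pi.single_eq_same, part_apply]
  · rw [Pi.single_eq_of_ne h, Pi.single_eq_of_ne h, Pi.single_zero, map_zero]
    rfl

variable (C : Type) [Field C] [Algebra k C]

variable (k V) in
/-- the inclusion of a summand -/
noncomputable def ic (i : ι) : C ⊗[k] V i →ₗ[C] C ⊗[k] (∀ i, V i) :=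
  (LinearMap.single k V i).baseChange C

variable (k V) in
/-- the projection to a summand -/
noncomputable def pc (i : ι) : C ⊗[k] (∀ i, V i) →ₗ[C] C ⊗[k] V i :=
  (LinearMap.proj (R := k) (φ := V) i).baseChange C

theorem pc_ic (i : ι) (v : C ⊗[k] V i) : pc k V C i (ic k V C i v) = v := by
  induction v using TensorProduct.induction_on with
  | zero => simp only [map_zero]
  | tmul c x =>
    rw [ic, pc, LinearMap.baseChange_tmul, LinearMap.baseChange_tmul]
    congr 1
    exact Pi.single_eq_same i x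
  | add x y hx hy => rw [map_add, map_add, hx, hy]

theorem cut_bc (i : ι) (X : End k (∀ i, V i)) :
    cut (ic k V C i) (pc k V C i) (X.baseChange C) = (part i X).baseChange C := by
  refine LinearMap.ext fun v => ?_
  rw [cut_apply]
  induction v using TensorProduct.induction_on with
  | zero => simp only [map_zero]
  | tmul c x =>
    rw [ic, pc, LinearMap.baseChange_tmul, LinearMap.baseChange_tmul, LinearMap.baseChange_tmul,
      LinearMap.baseChange_tmul]
    rfl
  | add x y hx hy => rw [map_add, map_add, map_add, map_add, hx, hy]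

variable {C}

theorem cuts {G : Submodule k (End k (∀ i, V i))} (hG : Parts G) (i : ι) :
    Cuts (ic k V C i) (pc k V C i) (bcS C G) := by
  refine ⟨pc_ic C i, ?_, ?_⟩
  · intro X hX
    induction hX using Submodule.span_induction with
    | mem X hX =>
      obtain ⟨Z, hZ, rfl⟩ := hX
      intro v
      rw [cut_bc]
      induction v using TensorProduct.induction_on with
      | zero => simp only [map_zero]
      | tmul c x =>
        rw [ic, LinearMap.baseChange_tmul, LinearMap.baseChange_tmul, LinearMap.baseChange_tmul,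
          LinearMap.baseChange_tmul]
        congr 1
        exact hG.single hZ i x
      | add x y hx hy => simp only [map_add, hx, hy]
    | zero => intro v; simp only [map_zero, LinearMap.zero_apply]
    | add X Y _ _ hX hY => intro v; simp only [map_add, LinearMap.add_apply, hX, hY]
    | smul c X _ hX => intro v; simp only [map_smul, LinearMap.smul_apply, hX]
  · intro X hX
    induction hX using Submodule.span_induction with
    | mem X hX =>
      obtain ⟨Z, hZ, rfl⟩ := hX
      intro v
      rw [cut_bc]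
      induction v using TensorProduct.induction_on with
      | zero => simp only [map_zero]
      | tmul c x =>
        rw [pc, LinearMap.baseChange_tmul, LinearMap.baseChange_tmul, LinearMap.baseChange_tmul,
          LinearMap.baseChange_tmul]
        congr 1
        exact hG Z hZ x i
      | add x y hx hy => simp only [map_add, hx, hy]
    | zero => intro v; simp only [map_zero, LinearMap.zero_apply]
    | add X Y _ _ hX hY => intro v; simp only [map_add, LinearMap.add_apply, hX, hY]
    | smul c X _ hX => intro v; simp only [map_smul, LinearMap.smul_apply, hX]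

theorem sum_blocks [Fintype ι] (x : C ⊗[k] (∀ i, V i)) :
    ∑ i, ic k V C i (pc k V C i x) = x := by
  induction x using TensorProduct.induction_on with
  | zero => simp only [map_zero, Finset.sum_const_zero]
  | tmul c x =>
    have h1 : ∀ i, ic k V C i (pc k V C i (c ⊗ₜ[k] x)) = c ⊗ₜ[k] (Pi.single i (x i)) := by
      intro i
      rw [ic, pc, LinearMap.baseChange_tmul, LinearMap.baseChange_tmul]
      rfl
    rw [Finset.sum_congr rfl fun i _ => h1 i, ← TensorProduct.tmul_sum,
      Finset.univ_sum_single]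
  | add x y hx hy => simp only [map_add, Finset.sum_add_distrib, hx, hy]

end blocks

section main

variable {k : Type} [Field k] [CharZero k] [Algebra k ℂ] {ι : Type} [Fintype ι] [DecidableEq ι]
  {V : ι → Type} [∀ i, AddCommGroup (V i)] [∀ i, Module k (V i)] [∀ i, FiniteDimensional k (V i)]

theorem eq_zero_of_pM' (h : S_BC) {W : Type} [AddCommGroup W] [Module k W]
    [FiniteDimensional k W] {Y : End ℂ (ℂ ⊗[k] W)}
    (hY : ∀ π : ℂ →ₗ[k] k, (pM π Y : End k W) = 0) : Y = 0 := by
  have h1 : Y ∈ bcS ℂ (⊥ : Submodule k (End k W)) := by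
    rw [(h k ℂ W ⊥).1]
    intro π
    rw [hY π]
    exact Submodule.zero_mem _
  have h2 : bcS ℂ (⊥ : Submodule k (End k W)) = ⊥ := by
    unfold bcS
    rw [Submodule.span_eq_bot]
    rintro _ ⟨X, hX, rfl⟩
    rw [SetLike.mem_coe, Submodule.mem_bot] at hX
    rw [hX]
    exact LinearMap.baseChange_zero
  rw [h2] at h1
  exact (Submodule.mem_bot ℂ).1 h1

/-- **The same commutants in the blocks.** If `L` contains a maximal torus of `G`, and for each block
the endomorphisms of the block which commute with `L` commute with `G`, then `L = G`. -/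
theorem eq_of_blocks (h : Inputs) (h2 : Inputs2) {L G : Submodule k (End k (∀ i, V i))}
    (hLie : IsLie L) (hLG : L ≤ G) (hG : IsLie G) (hndG : NonDeg G) (hndL : NonDeg L)
    (halg : ∀ X, (∀ (m : ℕ) (φ : Tensor k (∀ i, V i) m), (∀ Y ∈ G, KillsTensor Y φ) →
      KillsTensor X φ) → X ∈ G) (hparts : Parts G)
    {t : Submodule ℂ (End ℂ (ℂ ⊗[k] (∀ i, V i)))} (htL : t ≤ bcS ℂ L)
    (hdiag : ∀ a ∈ t, ⨆ μ, End.eigenspace a μ = ⊤) (hcomm : ∀ a ∈ t, ∀ b ∈ t, a * b = b * a)
    (hcen : ∀ x ∈ bcS ℂ G, (∀ a ∈ t, a * x = x * a) → x ∈ t)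
    (hcom : ∀ i, ∀ Y : End k (V i), (∀ X ∈ L, part i X * Y = Y * part i X) →
      ∀ X ∈ G, part i X * Y = Y * part i X) : L = G := by
  classical
  have hLC : IsLie (bcS ℂ L) := (h.bc k ℂ _ L).2.1 hLie
  have hGC : IsLie (bcS ℂ G) := (h.bc k ℂ _ G).2.1 hG
  have hLGC : bcS ℂ L ≤ bcS ℂ G := bcS_mono hLG
  have hNL : NonDeg (bcS ℂ L) := (h.bc k ℂ _ L).2.2.1 hndL
  have hNG : NonDeg (bcS ℂ G) := (h.bc k ℂ _ G).2.2.1 hndG
  have TG : Tor (bcS ℂ G) t := ⟨hGC, hNG, htL.trans hLGC, hdiag, hcomm, hcen⟩
  have TL : Tor (bcS ℂ L) t :=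
    ⟨hLC, hNL, htL, hdiag, hcomm, fun x hx => hcen x (hLGC hx)⟩
  have hrep : ∀ b ∈ t, ∀ f : ℂ →+ ℂ, ∃ s ∈ t, IsRep f b s := by
    intro b hb f
    obtain ⟨s, hs⟩ := exists_rep f b
    refine ⟨s, hcen s (rep_mem halg f (TG.le hb) hs) fun a ha => ?_, hs⟩
    exact (rep_comm hs (hcomm b hb a ha)).symm
  have hcG : ∀ i, Cuts (ic k V ℂ i) (pc k V ℂ i) (bcS ℂ G) := cuts hparts
  have hcL : ∀ i, Cuts (ic k V ℂ i) (pc k V ℂ i) (bcS ℂ L) :=
    cuts fun X hX => hparts X (hLG hX)
  have key : ∀ i, (bcS ℂ L).map (cut (ic k V ℂ i) (pc k V ℂ i)) =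
      (bcS ℂ G).map (cut (ic k V ℂ i) (pc k V ℂ i)) := by
    intro i
    have TGi := tor_cut TG (hcG i) hrep
    have TLi := tor_cut TL (hcL i) hrep
    refine max_rank TGi TLi (Submodule.map_mono hLGC) fun W hW => ?_
    obtain ⟨P, hP1, hP2, hP3⟩ := h2.weyl ℂ _ _ TLi.lie TLi.nd (fun x hx hxL =>
      TLi.diag x (TLi.cen x hx fun a ha => (hxL a (TLi.le ha)).symm)) W hW
    refine ⟨P, ?_, hP2, hP3⟩
    have h3 : ∀ π : ℂ →ₗ[k] k, ∀ X ∈ G, part i X * pM π P = pM π P * part i X := by
      intro π
      refine hcom i _ fun X hX => ?_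
      have h4 := hP1 _ ⟨_, mem_bcS hX, rfl⟩
      rw [cut_bc] at h4
      rw [← pM_bc_mul, h4, pM_mul_bc]
    rintro _ ⟨X, hX, rfl⟩
    induction hX using Submodule.span_induction with
    | mem X hX =>
      obtain ⟨Z, hZ, rfl⟩ := hX
      rw [cut_bc, ← sub_eq_zero]
      refine eq_zero_of_pM' h.bc fun π => ?_
      have h4 : (pM π ((part i Z).baseChange ℂ * P - P * (part i Z).baseChange ℂ) : End k (V i)) =
          pM π ((part i Z).baseChange ℂ * P) - pM π (P * (part i Z).baseChange ℂ) := by
        refine LinearMap.ext fun v => ?_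
        rw [LinearMap.sub_apply, pM_apply, pM_apply, pM_apply, LinearMap.sub_apply, map_sub]
      rw [h4, pM_bc_mul, pM_mul_bc, h3 π Z hZ, sub_self]
    | zero => rw [map_zero, zero_mul, mul_zero]
    | add X Y _ _ hX hY => rw [map_add, add_mul, mul_add, hX, hY]
    | smul c X _ hX => rw [map_smul, smul_mul_assoc, mul_smul_comm, hX]
  refine (h.bc k ℂ _ G).2.2.2.2.1 L hLG ?_
  refine gour ℂ _ (bcS ℂ G) (bcS ℂ L) t hGC hNG hLGC hLC htL hdiag hcomm hcen ι
    (fun i => ic k V ℂ i ∘ₗ pc k V ℂ i) ?_ ?_ ?_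
  · refine LinearMap.ext fun x => ?_
    rw [LinearMap.sum_apply]
    exact sum_blocks x
  · intro i X hX
    refine LinearMap.ext fun x => ?_
    change ic k V ℂ i (pc k V ℂ i (X x)) = X (ic k V ℂ i (pc k V ℂ i x))
    rw [(hcG i).right X hX, (hcG i).left X hX]
  · intro i X hX
    have h3 : cut (ic k V ℂ i) (pc k V ℂ i) X ∈ (bcS ℂ L).map (cut (ic k V ℂ i) (pc k V ℂ i)) := by
      rw [key i]
      exact ⟨X, hX, rfl⟩
    obtain ⟨Y, hY, hYX⟩ := h3
    refine ⟨Y, hY, LinearMap.ext fun x => ?_⟩
    change ic k V ℂ i (pc k V ℂ i (Y x)) = ic k V ℂ i (pc k V ℂ i (X x))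
    rw [(hcL i).right Y hY, (hcG i).right X hX, hYX]

end main

end Pool.Agent.K6.H79.MT
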