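import Mathlib
import Pool.Agent.N203.RE.Defs

/-!
# Sums of motives with one Frobenius torus of maximal rank: definitions
-/

set_option autoImplicit false

namespace Pool.Agent.K6.H79.MT

open Module Pool.Agent.Y114.RM Pool.Agent.N203.RE

section general

variable {k W : Type} [Field k] [AddCommGroup W] [Module k W] {Γ : Type} [Group Γ]

/-- The Tate tensors are the tensors killed by the elements of `S`. -/
def TateKilled (ρ : Representation k Γ W) (S : Set (End k W)) : Prop :=
  ∀ (m : ℕ) (φ : Tensor k W m), TateTensor ρ φ ↔ ∀ X ∈ S, KillsTensor X φ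

/-- The endomorphisms which commute with a subgroup of finite index of `Γ` commute with the elements
of `S`. -/
def EndosFixedBy (ρ : Representation k Γ W) (S : Set (End k W)) : Prop :=
  ∀ Y : End k W, (∃ Δ : Subgroup Γ, Δ.FiniteIndex ∧ ∀ γ ∈ Δ, ρ γ * Y = Y * ρ γ) →
    ∀ X ∈ S, X * Y = Y * X

/-- The endomorphisms which commute with the elements of `R` commute with the elements of `S`. -/
def CommutantIn (R S : Set (End k W)) : Prop :=
  ∀ Y : End k W, (∀ X ∈ R, X * Y = Y * X) → ∀ X ∈ S, X * Y = Y * X

end general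

section blocks

variable {k : Type} [Field k] {ι : Type} [DecidableEq ι] {V : ι → Type}
  [∀ i, AddCommGroup (V i)] [∀ i, Module k (V i)]

/-- The `i`-th diagonal blocks of the elements of `𝔤`. -/
def blocks (𝔤 : Submodule k (End k (∀ i, V i))) (i : ι) : Set (End k (V i)) :=
  {Z | ∃ X ∈ 𝔤, ∀ v, X (Pi.single i v) i = Z v}

end blocks

section main

variable {ι : Type} [DecidableEq ι] {n : ι → ℕ}

/-- The image of the Lie algebra `𝔤` in the endomorphisms of the Betti realization of the `i`-th
motive: the Lie algebra of the motivic Galois group (or of the Mumford-Tate group) of this motive. -/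
def bettiPart (𝔤 : Submodule ℚ (End ℚ (Betti n))) (i : ι) : Set (End ℚ (Fin (n i) → ℚ)) :=
  blocks (V := fun i => Fin (n i) → ℚ) 𝔤 i

/-- The image of `𝔤 ⊗ ℚ_ℓ` in the endomorphisms of the `ℓ`-adic realization of the `i`-th motive. -/
def ladicPart (ℓ : ℕ) [Fact ℓ.Prime] (𝔤 : Submodule ℚ (End ℚ (Betti n))) (i : ι) :
    Set (End ℚ_[ℓ] (Fin (n i) → ℚ_[ℓ])) :=
  blocks (V := fun i => Fin (n i) → ℚ_[ℓ]) (scalars ℓ 𝔤) i

variable {Γ : Type} [Group Γ] {ℓ : ℕ} [Fact ℓ.Prime]
  (ρ : Reps Γ n ℓ) (𝔪 𝔤 : Submodule ℚ (End ℚ (Betti n))) (i : ι)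

/-- All Tate tensors on the `ℓ`-adic realization of the `i`-th motive are motivated: they are the
tensors killed by the Lie algebra of its motivic Galois group. -/
def TatePart : Prop := TateKilled (ρ i) (ladicPart ℓ 𝔤 i)

/-- The endomorphisms of the `ℓ`-adic realization of the `i`-th motive which commute with a subgroup of
finite index of `Γ` commute with the Lie algebra of its motivic Galois group. -/
def EndosPart : Prop := EndosFixedBy (ρ i) (ladicPart ℓ 𝔤 i)

/-- The Mumford-Tate conjecture for the sum is equivalent to the one for all summands (the image of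
`𝔪`, the Lie algebra of the Mumford-Tate group of the `i`-th motive, is the one of the motivic Galois
group, and the Tate tensors are motivated), and to the part for the Hodge and Tate endomorphisms
of each summand. -/
structure MumfordTateIff : Prop where
  summands : MumfordTateAt ρ 𝔪 𝔤 ↔ ∀ i, bettiPart 𝔪 i = bettiPart 𝔤 i ∧ TatePart ρ 𝔤 i
  endomorphisms : MumfordTateAt ρ 𝔪 𝔤 ↔
    ∀ i, CommutantIn (bettiPart 𝔪 i) (bettiPart 𝔤 i) ∧ EndosPart ρ 𝔤 i

/-- What is proved at the prime number `ℓ`, in terms of the rank `r` of `𝔤`. -/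
structure PartsTheorem (r : ℕ) : Prop where
  /-- The representation is semisimple over all finite extensions. -/
  semisimple : Semisimple ρ
  /-- All Tate tensors on the sum are motivated if and only if this is true for each summand. -/
  tate : TateMotivated ρ 𝔤 ↔ ∀ i, TatePart ρ 𝔤 i
  /-- All Tate tensors on the sum are motivated if and only if the Tate endomorphisms of each
  summand are motivated. -/
  endos : TateMotivated ρ 𝔤 ↔ ∀ i, EndosPart ρ 𝔤 i
  /-- The case that `𝔪` (the Lie algebra of the Mumford-Tate group) has the rank `r`. -/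
  mumfordTate : ∀ 𝔪, 𝔪 ≤ 𝔤 → Reductive 𝔪 → ComplexRankGE 𝔪 r → MumfordTateIff ρ 𝔪 𝔤

end main

end Pool.Agent.K6.H79.MT
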