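import Mathlib
import Pool.Agent.K6.H79.ST.PairRestrict

/-!
# Tate tensors and motivated tensors on a direct summand
-/

set_option autoImplicit false
set_option linter.unusedSectionVars false

namespace Pool.Agent.K6.H79.MT

open Module Pool.Agent.Y114.RM Pool.Agent.Y114.TF Pool.Agent.H204R3.GP Pool.Agent.K6.H92.D4
  Pool.Agent.K6.H79.ST

variable {k : Type} [Field k] {ι : Type} [Fintype ι] [DecidableEq ι] {V : ι → Type}
  [∀ i, AddCommGroup (V i)] [∀ i, Module k (V i)] {Γ : Type} [Group Γ]
  {ρ : ∀ i, Representation k Γ (V i)}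

theorem kills_of_block (o : ι) {m : ℕ} {X : End k (∀ i, V i)} (hX : Diag X)
    {φ : Tensor k (V o) m} (hφ : KillsTensor (block o X) φ) :
    KillsTensor X (φ.compLinearMap fun _ => toSummand k V o) := by
  intro v
  rw [← hφ fun l => toSummand k V o (v l)]
  refine Finset.sum_congr rfl fun l _ => ?_
  rw [MultilinearMap.compLinearMap_apply]
  congr 1
  funext j
  by_cases hj : j = l
  · subst hj
    rw [Function.update_self, Function.update_self, toSummand_lie o hX]
    rfl
  · rw [Function.update_of_ne hj, Function.update_of_ne hj]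

theorem tate_of_comp (o : ι) {m : ℕ} {φ : Tensor k (V o) m}
    (h : TateTensor (sumRep ρ) (φ.compLinearMap fun _ => toSummand k V o)) :
    TateTensor (ρ o) φ := by
  obtain ⟨Δ, hΔ, h⟩ := h
  refine ⟨Δ, hΔ, fun γ hγ v => ?_⟩
  choose u hu using fun l => toSummand_surjective (k := k) (V := V) o (v l)
  have h1 := h γ hγ u
  rw [MultilinearMap.compLinearMap_apply, MultilinearMap.compLinearMap_apply] at h1
  simp only [toSummand_grp, hu] at h1
  exact h1

end Pool.Agent.K6.H79.MT
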