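import Mathlib
import Pool.Agent.N203.RE.Main
import Pool.Agent.K6.H79.MT.Defs
import Pool.Agent.K6.H79.MT.Blocks
import Pool.Agent.K6.H79.MT.Tens

/-!
# Sums of motives with one Frobenius torus of maximal rank
-/

set_option autoImplicit false
set_option linter.unusedSectionVars false
set_option linter.unusedVariables false

namespace Pool.Agent.K6.H79.MT

open NumberField IsDedekindDomain Module TensorProduct Pool.Agent.TH118.SG Pool.Agent.Y114.RM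
  Pool.Agent.Y114.MU Pool.Agent.Y114.TF Pool.Agent.Y114.GF Pool.Agent.H204R3.GP
  Pool.Agent.R931.IR Pool.Agent.R931.BD Pool.Agent.N203.RE

section blocks

variable {k : Type} [Field k] {ι : Type} [DecidableEq ι] {V : ι → Type}
  [∀ i, AddCommGroup (V i)] [∀ i, Module k (V i)]

theorem mem_blocks {𝔤 : Submodule k (End k (∀ i, V i))} {X : End k (∀ i, V i)} (hX : X ∈ 𝔤)
    (i : ι) : part i X ∈ blocks 𝔤 i := ⟨X, hX, fun _ => rfl⟩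

theorem exists_of_mem_blocks {𝔤 : Submodule k (End k (∀ i, V i))} {i : ι} {Z : End k (V i)}
    (hZ : Z ∈ blocks 𝔤 i) : ∃ X ∈ 𝔤, part i X = Z := by
  obtain ⟨X, hX, h⟩ := hZ
  exact ⟨X, hX, LinearMap.ext h⟩

end blocks

section full

variable {ι : Type} [Fintype ι] [DecidableEq ι] {n : ι → ℕ} {ℓ : ℕ} [hℓ : Fact ℓ.Prime]
  {Γ : Type} [Group Γ] [TopologicalSpace Γ] [IsTopologicalGroup Γ] [CompactSpace Γ]

theorem full_of_parts (ρ : ∀ i, Representation ℚ_[ℓ] Γ (Fin (n i) → ℚ_[ℓ]))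
    (hρ : ∀ i, Continuous fun g => LinearMap.toMatrix' (ρ i g))
    (𝔤 : Submodule ℚ_[ℓ] (End ℚ_[ℓ] (∀ i, Fin (n i) → ℚ_[ℓ]))) (h𝔤 : IsMotivic ρ 𝔤)
    {L : Submodule ℚ_[ℓ] (End ℚ_[ℓ] (∀ i, Fin (n i) → ℚ_[ℓ]))}
    (alg : Algebra ℚ_[ℓ] ℂ) {t : Submodule ℂ (End ℂ (ℂ ⊗[ℚ_[ℓ]] (∀ i, Fin (n i) → ℚ_[ℓ])))}
    (hss : FiniteIndexSemisimple (sumRep ρ))
    (hLT : ∀ X, X ∈ L ↔ ∀ (m : ℕ) (φ : Tensor ℚ_[ℓ] (∀ i, Fin (n i) → ℚ_[ℓ]) m),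
      TateTensor (sumRep ρ) φ → KillsTensor X φ) (hLie : IsLie L) (hLG : L ≤ 𝔤)
    (hND : NonDeg L) (htL : t ≤ bcS ℂ L) (hdiag : ∀ a ∈ t, ⨆ μ, End.eigenspace a μ = ⊤)
    (hcomm : ∀ a ∈ t, ∀ b ∈ t, a * b = b * a)
    (hcen : ∀ x ∈ bcS ℂ 𝔤, (∀ a ∈ t, a * x = x * a) → x ∈ t)
    (hend : ∀ i, EndosFixedBy (ρ i) (blocks (V := fun i => Fin (n i) → ℚ_[ℓ]) 𝔤 i)) : L = 𝔤 := by
  classical
  have h := inputs
  have h2 := inputs2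
  have hL : ∀ X, X ∈ L ↔ X ∈ LT (sumRep ρ) := fun X =>
    ⟨fun hX => mem_LT_of_semisimple (sumRep ρ) hss ((hLT X).1 hX), fun hX => (hLT X).2 hX.2⟩
  obtain ⟨L', hL', -, hAd', -⟩ := h.lie ℚ_[ℓ] (∀ i, Fin (n i) → ℚ_[ℓ]) _ (sumRep ρ)
  have hLL' : L' = L := by
    ext X
    rw [hL', hL]
  rw [hLL'] at hAd'
  obtain ⟨Δ', hΔ', hcommΔ⟩ := h2.tfr ℓ ι n _ ρ hρ (comm L) (comm_conj (sumRep ρ) hAd')
    (comm_order (sumRep ρ) h h2 hL)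
  have hpL : Parts L := fun X hX => h𝔤.parts X (hLG hX)
  refine eq_of_blocks h h2 hLie hLG h𝔤.bracket h𝔤.nondeg hND h𝔤.algebraic h𝔤.parts htL hdiag
    hcomm hcen fun i Y hY X hX => ?_
  refine hend i Y ⟨Δ', hΔ', fun γ hγ => ?_⟩ _ (mem_blocks hX i)
  have h3 := hcommΔ γ hγ (LinearMap.single ℚ_[ℓ] (fun i => Fin (n i) → ℚ_[ℓ]) i ∘ₗ Y ∘ₗ
    LinearMap.proj i) (by
      intro Z hZ
      refine LinearMap.ext fun x => ?_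
      change Z (Pi.single i (Y (x i))) = Pi.single i (Y ((Z x) i))
      rw [hpL.single hZ, hpL Z hZ x i]
      have h4 := LinearMap.congr_fun (hY Z hZ) (x i)
      change part i Z (Y (x i)) = Y (part i Z (x i)) at h4
      rw [h4]
      rfl)
  refine LinearMap.ext fun v => ?_
  have h4 := congrFun (LinearMap.congr_fun h3 (Pi.single i v)) i
  change ρ i γ ((Pi.single i (Y ((Pi.single i v : ∀ i, Fin (n i) → ℚ_[ℓ]) i)) :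
    ∀ i, Fin (n i) → ℚ_[ℓ]) i) = (Pi.single i (Y (ρ i γ ((Pi.single i v :
    ∀ i, Fin (n i) → ℚ_[ℓ]) i))) : ∀ i, Fin (n i) → ℚ_[ℓ]) i at h4
  rw [Pi.single_eq_same, Pi.single_eq_same, Pi.single_eq_same] at h4
  exact h4

theorem tate_parts (ρ : ∀ i, Representation ℚ_[ℓ] Γ (Fin (n i) → ℚ_[ℓ]))
    (𝔤 : Submodule ℚ_[ℓ] (End ℚ_[ℓ] (∀ i, Fin (n i) → ℚ_[ℓ]))) (h𝔤 : IsMotivic ρ 𝔤)
    (h : TateIsKilledBy (sumRep ρ) 𝔤) (i : ι) :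
    TateKilled (ρ i) (blocks (V := fun i => Fin (n i) → ℚ_[ℓ]) 𝔤 i) := by
  intro m φ
  constructor
  · rintro hφ Z hZ
    obtain ⟨X, hX, rfl⟩ := exists_of_mem_blocks hZ
    exact Pool.Agent.K6.H79.ST.kills_block (ρ := ρ) i (h𝔤.parts X hX)
      (fun ψ hψ => (h m ψ).1 hψ X hX) φ hφ
  · intro hφ
    refine tate_of_comp i ((h m _).2 fun X hX => ?_)
    exact kills_of_block i (h𝔤.parts X hX) (hφ _ (mem_blocks hX i))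

theorem endos_of_tate {k W : Type} [Field k] [AddCommGroup W] [Module k W]
    (ρ : Representation k Γ W) (S : Set (End k W)) (h : TateKilled ρ S) : EndosFixedBy ρ S := by
  rintro Y ⟨Δ, hΔ, hY⟩ X hX
  exact tate_comm ρ (fun m φ hφ => (h m φ).1 hφ X hX) hΔ fun s hs => (hY s hs).symm

end full

section hodge

variable {ι : Type} [Fintype ι] [DecidableEq ι] {n : ι → ℕ}

theorem parts_of_scalars {ℓ : ℕ} [Fact ℓ.Prime] {𝔤 : Submodule ℚ (End ℚ (Betti n))}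
    (h : ∀ X ∈ scal ℓ 𝔤, ∀ x i, X x i = X (Pi.single i (x i)) i) {X : End ℚ (Betti n)}
    (hX : X ∈ 𝔤) (x : ∀ i, Fin (n i) → ℚ) (i : ι) :
    (X x : ∀ i, Fin (n i) → ℚ) i = (X (Pi.single i (x i) : ∀ i, Fin (n i) → ℚ) :
      ∀ i, Fin (n i) → ℚ) i := by
  have hY : (ee ℓ).conj (X.baseChange ℚ_[ℓ]) ∈ scal ℓ 𝔤 := (mem_scalars ℓ).2 (mem_bcS hX)
  have hE : Extends X ((ee ℓ).conj (X.baseChange ℚ_[ℓ])) := (extends_iff ℓ X _).2 rfl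
  have h1 := h _ hY (toLadic ℓ x) i
  have h2 : (Pi.single i (toLadic ℓ x i) : ∀ i, Fin (n i) → ℚ_[ℓ]) =
      toLadic ℓ (Pi.single i (x i) : ∀ i, Fin (n i) → ℚ) := by
    funext j a
    by_cases hj : j = i
    · subst hj
      rw [Pi.single_eq_same]
      change ((x j a : ℚ) : ℚ_[ℓ]) = (((Pi.single j (x j) : ∀ i, Fin (n i) → ℚ) j a : ℚ) : ℚ_[ℓ])
      rw [Pi.single_eq_same]
    · rw [Pi.single_eq_of_ne hj]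
      change (0 : ℚ_[ℓ]) = (((Pi.single i (x i) : ∀ i, Fin (n i) → ℚ) j a : ℚ) : ℚ_[ℓ])
      rw [Pi.single_eq_of_ne hj]
      simp
  rw [h2, hE, hE] at h1
  funext a
  have h3 := congrFun h1 a
  change (((X x : ∀ i, Fin (n i) → ℚ) i a : ℚ) : ℚ_[ℓ]) =
    (((X (Pi.single i (x i) : ∀ i, Fin (n i) → ℚ) : ∀ i, Fin (n i) → ℚ) i a : ℚ) : ℚ_[ℓ]) at h3
  exact_mod_cast h3

theorem hodge_parts {𝔪 𝔤 : Submodule ℚ (End ℚ (∀ i, Fin (n i) → ℚ))} (hle : 𝔪 ≤ 𝔤)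
    (hm : Reductive 𝔪) (hg : Reductive 𝔤) {r : ℕ} (hrank : RatRankLE 𝔤 r)
    (hr : ComplexRankGE 𝔪 r) (hparts : Parts 𝔤)
    (hcom : ∀ i, CommutantIn (blocks (V := fun i => Fin (n i) → ℚ) 𝔪 i)
      (blocks (V := fun i => Fin (n i) → ℚ) 𝔤 i)) : 𝔪 = 𝔤 := by
  have h := inputs
  have h2 := inputs2
  have hmC : IsLie (bcS ℂ 𝔪) := (h.bc ℚ ℂ _ 𝔪).2.1 hm.bracket
  have hmN : NonDeg (bcS ℂ 𝔪) := (h.bc ℚ ℂ _ 𝔪).2.2.1 hm.nondeg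
  have hgC : IsLie (bcS ℂ 𝔤) := (h.bc ℚ ℂ _ 𝔤).2.1 hg.bracket
  have hgN : NonDeg (bcS ℂ 𝔤) := (h.bc ℚ ℂ _ 𝔤).2.2.1 hg.nondeg
  obtain ⟨t, ht, hd, hc, hrt⟩ := exists_torus_rank (bcS ℂ 𝔪) hmC hmN
    (h2.jord ℚ ℂ _ 𝔪 hm.algebraic) hr
  obtain ⟨X, hX, hXr⟩ := hrank
  have hcen := h2.cartan ℂ _ (bcS ℂ 𝔤) t hgC hgN (h2.jord ℚ ℂ _ 𝔤 hg.algebraic)
    (ht.trans (bcS_mono hle)) hd hc ⟨X.baseChange ℂ, mem_bcS hX, by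
      rw [(h.bc ℚ ℂ _ 𝔤).2.2.2.1]; exact hXr.trans hrt⟩
  refine eq_of_blocks h h2 hm.bracket hle hg.bracket hg.nondeg hm.nondeg hg.algebraic hparts ht hd
    hc hcen fun i Y hY X hX => ?_
  refine hcom i Y (fun Z hZ => ?_) _ (mem_blocks hX i)
  obtain ⟨Z', hZ', rfl⟩ := exists_of_mem_blocks hZ
  exact hY Z' hZ'

end hodge

section main

variable {K : Type} [Field K] [NumberField K] {Γ : Type} [Group Γ] [TopologicalSpace Γ]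
  {ι : Type} [Fintype ι] [DecidableEq ι] {n : ι → ℕ} [IsTopologicalGroup Γ] [CompactSpace Γ]

theorem partsTheorem_of {ℓ : ℕ} [Fact ℓ.Prime] {ρ : Reps Γ n ℓ} (hρ : Conts ρ)
    {𝔤 : Submodule ℚ (End ℚ (Betti n))} (hg : Reductive 𝔤) (hmot : Motivic ρ (scalars ℓ 𝔤))
    {r : ℕ} (hrank : RatRankLE 𝔤 r)
    (h : ∃ (L : Submodule ℚ_[ℓ] (End ℚ_[ℓ] (∀ i, Fin (n i) → ℚ_[ℓ])))
      (_ : Algebra ℚ_[ℓ] ℂ) (t : Submodule ℂ (End ℂ (ℂ ⊗[ℚ_[ℓ]] (∀ i, Fin (n i) → ℚ_[ℓ])))),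
      FiniteIndexSemisimple (sumRep ρ) ∧
      (∀ X, X ∈ L ↔ ∀ (m : ℕ) (φ : Tensor ℚ_[ℓ] (∀ i, Fin (n i) → ℚ_[ℓ]) m),
        TateTensor (sumRep ρ) φ → KillsTensor X φ) ∧ IsLie L ∧ L ≤ scal ℓ 𝔤 ∧ NonDeg L ∧
      (∀ x ∈ L, r ≤ finrank ℚ_[ℓ] (cen L x)) ∧
      (∀ (τ : Γ) (d : ℕ), 2 ≤ d → (sumRep ρ τ - 1) ^ d = 0 →
        lgA d (sumRep ρ τ - 1) 1 ∈ L) ∧
      t ≤ bcS ℂ L ∧ (∀ a ∈ t, ⨆ μ, End.eigenspace a μ = ⊤) ∧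
      (∀ a ∈ t, ∀ b ∈ t, a * b = b * a) ∧
      (∀ x ∈ bcS ℂ (scal ℓ 𝔤), (∀ a ∈ t, a * x = x * a) → x ∈ t)) :
    PartsTheorem ρ 𝔤 r := by
  obtain ⟨L, alg, t, hss, hLT, hLie, hLG, hND, hrk, -, htL, hdiag, hcomm, hcen⟩ := h
  have key1 : (∀ i, EndosPart ρ 𝔤 i) → TateMotivated ρ 𝔤 := by
    intro hend
    have hfull : L = scal ℓ 𝔤 := full_of_parts ρ hρ (scal ℓ 𝔤) hmot alg hss hLT hLie hLG hND
      htL hdiag hcomm hcen hend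
    intro m φ
    exact ⟨fun hφ X hX => (hLT X).1 (hfull ▸ hX) m φ hφ, IsMotivic.tate hmot m φ⟩
  have key2 : TateMotivated ρ 𝔤 → ∀ i, TatePart ρ 𝔤 i := fun h i =>
    tate_parts ρ (scal ℓ 𝔤) hmot h i
  have key3 : ∀ i, TatePart ρ 𝔤 i → EndosPart ρ 𝔤 i := fun i h => endos_of_tate (ρ i) _ h
  have key4 : ∀ 𝔪 : Submodule ℚ (End ℚ (Betti n)), 𝔪 ≤ 𝔤 → Reductive 𝔪 → ComplexRankGE 𝔪 r →
      (∀ i, CommutantIn (bettiPart 𝔪 i) (bettiPart 𝔤 i)) → 𝔪 = 𝔤 :=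
    fun 𝔪 hle hm hr hcom => hodge_parts (n := n) hle hm hg hrank hr
      (fun X hX x i => parts_of_scalars hmot.parts hX x i) hcom
  refine ⟨hss, ⟨key2, fun h => key1 fun i => key3 i (h i)⟩,
    ⟨fun h i => key3 i (key2 h i), key1⟩, fun 𝔪 hle hm hr => ⟨⟨fun h i => ⟨?_, key2 h.2.2 i⟩,
    fun h => ⟨key4 𝔪 hle hm hr fun i Y hY X hX => hY X ?_, hss, key1 fun i => key3 i (h i).2⟩⟩,
    ⟨fun h i => ⟨fun Y hY X hX => hY X ?_, key3 i (key2 h.2.2 i)⟩,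
    fun h => ⟨key4 𝔪 hle hm hr fun i => (h i).1, hss, key1 fun i => (h i).2⟩⟩⟩⟩
  · rw [h.1]
  · rw [(h i).1]
    exact hX
  · rw [h.1]
    exact hX

/-- One place of maximal rank, over a number field. -/
theorem main_place {s : Gal(AlgebraicClosure K/K) →* Γ} {w : ι → ℤ}
    {S : Set (HeightOneSpectrum (𝓞 K))} {P : HeightOneSpectrum (𝓞 K) → ι → Polynomial ℚ}
    {ρ : ∀ (ℓ : ℕ) [Fact ℓ.Prime], Reps Γ n ℓ} {𝔤 : Submodule ℚ (End ℚ (Betti n))}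
    (h : Realizations s w S P ρ 𝔤) (r : ℕ) (hrank : RatRankLE 𝔤 r)
    (p₀ : ℕ) (hp : MaximalRankAt S P r p₀) (ℓ : ℕ) [Fact ℓ.Prime] (hℓ : ℓ ≠ p₀) :
    PartsTheorem (ρ ℓ) 𝔤 r := by
  obtain ⟨hp₀, hunr, hp₀S, hind₀, v₀, hv₀, hr⟩ := hp
  refine partsTheorem_of (h.continuous ℓ) h.reductive (h.motivic ℓ) hrank ?_
  exact semi_main' (ρ ℓ) s h.continuous_point inputs inputs2 inputs3.rank (h.continuous ℓ)
    (scal ℓ 𝔤) (h.motivic ℓ) P _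
    (by rw [(Pool.Agent.R931.GD.infinite_good S h.finite ℓ).encard_eq]; exact le_top)
    (fun p hp => ⟨hp.1, hp.2.1, hp.2.2.1⟩)
    (fun p hp v hv => goodPlace_of (restrictTo (ρ ℓ) s)
      (h.good ℓ v (hp.2.2.2 v hv) fun h' => hp.2.1
        (Pool.Agent.R931.GD.above_inj hp.1 (Fact.out : ℓ.Prime) hv h')))
    (show p₀ ∈ {p : ℕ | p.Prime ∧ p ≠ ℓ ∧ UnramifiedIn K p ∧ ∀ v, Above v p → v ∉ S} from
      ⟨hp₀, hℓ.symm, hunr, hp₀S⟩) hind₀ hv₀ r (independentRoots_range hr) (rank_scalars ℓ hrank)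

/-- One element at one prime number, over the rational numbers. -/
theorem main_element {s : Gal(AlgebraicClosure ℚ/ℚ) →* Γ} {w : ι → ℤ}
    {S : Set (HeightOneSpectrum (𝓞 ℚ))} {P : HeightOneSpectrum (𝓞 ℚ) → ι → Polynomial ℚ}
    {ρ : ∀ (ℓ : ℕ) [Fact ℓ.Prime], Reps Γ n ℓ} {𝔤 : Submodule ℚ (End ℚ (Betti n))}
    (h : Realizations s w S P ρ 𝔤) (c : ℕ) (hint : IntegralOutside S P c)
    (r : ℕ) (hrank : RatRankLE 𝔤 r) (ℓ₀ : ℕ) [Fact ℓ₀.Prime]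
    (hσ : ∃ σ, IndependentEigenvalues (ρ ℓ₀) (s σ) r) (ℓ : ℕ) [Fact ℓ.Prime] :
    PartsTheorem (ρ ℓ) 𝔤 r :=
  partsTheorem_of (h.continuous ℓ) h.reductive (h.motivic ℓ) hrank
    (tuple s h.continuous_point w c S h.finite P ℓ₀ (ρ ℓ₀) (h.continuous ℓ₀)
      (fun v hv hvℓ i => ⟨h.good ℓ₀ v hv hvℓ i, hint v hv i⟩) r hσ ℓ (ρ ℓ) (h.continuous ℓ)
      (h.good ℓ) (scal ℓ 𝔤) (h.motivic ℓ) (rank_scalars ℓ hrank))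

end main

end Pool.Agent.K6.H79.MT
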